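import Pool.Agent.Helper53.Comp.GoalsK
import Pool.Agent.Helper33.Mono.AlgMain

/-! The algebraic main lemma with a set `V` of covered coordinates. -/

set_option autoImplicit false

namespace Mono.Comp

open Finset Filter Topology Pool.Agent.Helper33.Mono


theorem algMainV (hS : SpanT) (hC : StarCoverT) : AlgMainV := by
  classical
  intro n Φ hcoh G hG V
  have hRD := regDim hS (shelling hS hC)
  set L : Finset (Fin n) := (cs G)ᶜ \ V with hL
  have hdisj : ∀ S ⊆ L, Disjoint S (cs G) := by
    intro S hSL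
    rw [Finset.disjoint_left]
    intro i hi hi'
    have := hSL hi
    rw [hL, Finset.mem_sdiff, Finset.mem_compl] at this
    exact this.1 hi'
  have key := distrib_lemma (k := ℝ) (P := MvPolynomial (Fin n → ℤ) ℝ) (L := L)
    (B := Φ.bad G) (I := coordIdeal) (θ := Φ.theta)
    (fun l _ => Ideal.mem_sup_right (theta_mem_coordIdeal l))
    (fun j S hSL hj x hx => by
      rw [← Q_eq'] at hx ⊢
      exact (hRD n Φ hcoh G hG S (hdisj S hSL)).1 j hj x hx)
    (by
      intro S J _ _ _ a ha
      have h1 : Q (Φ.bad G) coordIdeal Φ.theta 0 S =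
          SI ℝ ({A | ¬ Φ.IsFace (A ∪ G)} ∪
            ⋃ l ∈ S, {A : Finset (Fin n → ℤ) | ∃ u, u l ≠ 0 ∧ A = {u}}) := by
        rw [Q_zero, SI_union, SI_biUnion, bad_eq]
        congr 1
        refine iSup_congr fun l => iSup_congr fun _ => ?_
        exact coordIdeal_eq l
      rw [h1] at ha ⊢
      have := SI_crt (k := ℝ) J ({A | ¬ Φ.IsFace (A ∪ G)} ∪
            ⋃ l ∈ S, {A : Finset (Fin n → ℤ) | ∃ u, u l ≠ 0 ∧ A = {u}})
        (fun i => {A : Finset (Fin n → ℤ) | ∃ u, u i ≠ 0 ∧ A = {u}}) a (by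
          intro i hi i' hi' hne
          have := ha i hi i' hi' hne
          rwa [coordIdeal_eq, coordIdeal_eq] at this)
      obtain ⟨x, hx⟩ := this
      refine ⟨x, fun i hi => ?_⟩
      rw [coordIdeal_eq]
      exact hx i hi)
    (fun S hSL => by
      rw [← Q_eq']
      exact (hRD n Φ hcoh G hG S (hdisj S hSL)).2.1)
  have hsum : ∑ S ∈ L.powerset, (-1 : ℤ) ^ S.card *
      (Module.finrank ℝ (MvPolynomial (Fin n → ℤ) ℝ ⧸ Q (Φ.bad G) coordIdeal Φ.theta n S) : ℤ) =
      ellV Φ V G := by
    unfold ellV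
    refine Finset.sum_bij' (fun S _ => Sᶜ) (fun T _ => Tᶜ) ?_ ?_ ?_ ?_ ?_
    · intro S hS'
      rw [Finset.mem_filter]
      refine ⟨Finset.mem_univ _, ?_, ?_⟩
      · rw [Finset.mem_powerset, hL] at hS'
        intro i hi
        rw [Finset.mem_compl]
        intro h
        have := hS' h
        rw [Finset.mem_sdiff, Finset.mem_compl] at this
        exact this.1 hi
      · rw [Finset.mem_powerset, hL] at hS'
        intro i hi
        rw [Finset.mem_compl]
        intro h
        have := hS' h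
        rw [Finset.mem_sdiff] at this
        exact this.2 hi
    · intro T hT'
      rw [Finset.mem_filter] at hT'
      rw [Finset.mem_powerset, hL]
      intro i hi
      rw [Finset.mem_compl] at hi
      rw [Finset.mem_sdiff, Finset.mem_compl]
      exact ⟨fun h => hi (hT'.2.1 h), fun h => hi (hT'.2.2 h)⟩
    · intro S _
      exact compl_compl S
    · intro T _
      exact compl_compl T
    · intro S hS'
      rw [Finset.mem_powerset] at hS'
      rw [← Q_eq', (hRD n Φ hcoh G hG S (hdisj S hS')).2.2]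
      have h1 : n - Sᶜ.card = S.card := by
        rw [Finset.card_compl, Fintype.card_fin]
        have := Finset.card_le_univ S
        rw [Fintype.card_fin] at this
        omega
      rw [h1]
  rw [hsum] at key
  refine ⟨key.1, fun h0 m hm => ?_⟩
  have h1 := key.2 h0
  have h2 : MvPolynomial.monomial m (1 : ℝ) ∈ (⨅ i ∈ L, Φ.bad G ⊔ coordIdeal i) := by
    rw [Submodule.mem_iInf]
    intro i
    rw [Submodule.mem_iInf]
    intro hi
    rw [hL, Finset.mem_sdiff, Finset.mem_compl] at hi
    obtain ⟨u, hu, hu'⟩ := hm i hi.1 hi.2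
    apply Ideal.mem_sup_right
    rw [coordIdeal_eq]
    have h9 : MvPolynomial.monomial m (1 : ℝ) ∈
        SI ℝ {A : Finset (Fin n → ℤ) | ∃ v, v i ≠ 0 ∧ A = {v}} := by
      refine monomial_mem_SI ?_ 1
      exact ⟨{u}, ⟨u, hu', rfl⟩, Finset.singleton_subset_iff.2 hu⟩
    exact h9
  have h3 := h1 h2
  have h4 : Q (Φ.bad G) coordIdeal Φ.theta n ∅ = Φ.bad G ⊔ Ideal.span (Set.range Φ.theta) := by
    unfold Q
    have h5 : {x | ∃ j : Fin n, (j : ℕ) < n ∧ x = Φ.theta j} = Set.range Φ.theta := by
      ext x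
      constructor
      · rintro ⟨j, _, rfl⟩
        exact ⟨j, rfl⟩
      · rintro ⟨j, rfl⟩
        exact ⟨j, j.2, rfl⟩
    rw [h5]
    simp
  rwa [h4] at h3

end Mono.Comp
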