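import Pool.Agent.Helper53.Comp.GoalsK
import Pool.Agent.Helper27.Mono.F1

/-! Packet K6: the limit of the contribution of one class, for real weights. -/

namespace Mono

namespace Comp

open Finset Filter Asymptotics Topology

namespace K6

variable {n : ℕ}

/-- The numerator of the contribution of a cone. -/
noncomputable def YFR (Φ : Fan n) (v : Finset (Fin n → ℤ) → ℝ) (Z σ : Finset (Fin n → ℤ))
    (c e : (Fin n → ℤ) → ℝ) (s ε : ℝ) : ℝ :=
  ((s + ∑ t ∈ σ \ Z, c t) + ε * ∑ u ∈ Φ.vert \ Z, e u)⁻¹ *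
    ∑ B ∈ ((Φ.vert \ Z) \ σ).powerset, (∏ u ∈ B, (ε * e u)) *
      ∑ ρ ∈ (σ \ Z).powerset, ((-1) ^ (ρ.card + B.card) * v (ρ ∪ B)) *
        ∏ t ∈ σ \ ρ, (c t + ε * e t)⁻¹

theorem cl_YFR (Φ : Fan n) (v : Finset (Fin n → ℤ) → ℝ) (Z σ : Finset (Fin n → ℤ))
    (c e : (Fin n → ℤ) → ℝ) (s : ℝ)
    (hc : ∀ t ∈ σ, c t ≠ 0) (hs : s + ∑ t ∈ σ \ Z, c t ≠ 0) :
    Cl n (YFR Φ v Z σ c e s)
      (fun ε => MvPolynomial.eval (fun u => ε * e u) (YhatR Φ v Z σ c s)) := by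
  have h := ((cl_tgeo (n := n) hs (∑ u ∈ Φ.vert \ Z, e u)).mul
    (Cl.sum ((Φ.vert \ Z) \ σ).powerset
      (f := fun B ε => (∏ u ∈ B, (ε * e u)) *
      ∑ ρ ∈ (σ \ Z).powerset, ((-1) ^ (ρ.card + B.card) * v (ρ ∪ B)) *
        ∏ t ∈ σ \ ρ, (c t + ε * e t)⁻¹)
      (g := fun B ε => (∏ u ∈ B, (ε * e u)) *
      ∑ ρ ∈ (σ \ Z).powerset, ((-1) ^ (ρ.card + B.card) * v (ρ ∪ B)) *
        ∏ t ∈ σ \ ρ, ∑ k ∈ range (n + 1), ((-1) ^ k * (c t)⁻¹ ^ (k + 1)) * (ε * e t) ^ k) ?_))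
  · convert! h using 2 with ε
    simp only [YhatR, Y0R, tgeo, map_sum, map_mul, map_prod, map_pow,
      MvPolynomial.eval_X, MvPolynomial.eval_C, Finset.mul_sum]
  · intro B _
    refine Cl.mul (Cl.of_continuousAt (by fun_prop)) (Cl.sum _ fun ρ _ => ?_)
    refine Cl.mul (Cl.of_continuousAt continuousAt_const) (Cl.prod _ fun t ht => ?_)
    exact cl_tgeo (hc t (Finset.mem_sdiff.1 ht).1) (e t)

theorem crd_oneR {Φ : Fan n} {σ : Finset (Fin n → ℤ)} {c : (Fin n → ℤ) → ℝ}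
    {w0 : Fin n → ℝ} (hc : IsClassR Φ w0 σ c) {F : Finset (Fin n → ℤ)} (hF : F ∈ Φ.mx) (hσ : σ ⊆ F) :
    crd F w0 = fun u => if u ∈ σ then c u else 0 := by
  classical
  apply crd_unique (Φ.mx_indep F hF)
  refine ⟨fun u hu => ?_, ?_⟩
  · exact if_neg fun h => hu (hσ h)
  · rw [hc.2.2, ← Finset.sum_subset hσ]
    · exact Finset.sum_congr rfl fun t ht => by simp only [ht, if_true]
    · intro u _ hu
      simp only [hu, if_false, zero_smul]

theorem wterm_eqR {Φ : Fan n} {v : Finset (Fin n → ℤ) → ℝ} {Z σ : Finset (Fin n → ℤ)} {c : (Fin n → ℤ) → ℝ}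
    {w0 : Fin n → ℝ} (hc : IsClassR Φ w0 σ c) {F : Finset (Fin n → ℤ)} (hF : F ∈ Φ.mx) (hσ : σ ⊆ F) {η : Fin n → ℝ}
    (hη : Φ.Generic η) (s : ℝ) {ε : ℝ} (hε : ε ≠ 0) :
    WtermR v Z F s (w0 + ε • η) =
      (1 / ((idx (F : Set (Fin n → ℤ)) : ℝ) * ∏ u ∈ F \ σ, crd F η u)) *
        ((ε ^ (n - σ.card))⁻¹ * YFR Φ v Z σ c (crd F η) s ε) := by
  classical
  set e := crd F η with he
  have hFi := Φ.mx_indep F hF
  have hFc := Φ.mx_card F hF
  have hFv := Φ.mx_sub F hF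
  have he0 : ∀ u, u ∉ F → e u = 0 := fun u hu => crd_of_notMem F η hu
  have hene : ∀ u ∈ F, e u ≠ 0 := fun u hu => hη.1 F hF u hu
  have hw : ∀ u, crd F (w0 + ε • η) u = (if u ∈ σ then c u else 0) + ε * e u := by
    intro u
    rw [crd_add hFi hFc, crd_smul hFi hFc, crd_oneR hc hF hσ]
  set w : (Fin n → ℤ) → ℝ := fun u => (if u ∈ σ then c u else 0) + ε * e u with hwdef
  have hwe : crd F (w0 + ε • η) = w := funext hw
  -- the linear form
  have hpsi : psi Z F (w0 + ε • η) =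
      ∑ t ∈ σ \ Z, c t + ε * ∑ u ∈ Φ.vert \ Z, e u := by
    unfold psi
    rw [hwe]
    simp only [w]
    rw [Finset.sum_add_distrib, ← Finset.mul_sum]
    congr 1
    · rw [← Finset.sum_subset (Finset.sdiff_subset_sdiff hσ (le_refl Z))]
      · exact Finset.sum_congr rfl fun t ht => by rw [if_pos (Finset.mem_sdiff.1 ht).1]
      · intro u hu hu2
        rw [if_neg]
        intro h
        exact hu2 (Finset.mem_sdiff.2 ⟨h, (Finset.mem_sdiff.1 hu).2⟩)
    · congr 1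
      apply Finset.sum_subset (Finset.sdiff_subset_sdiff hFv (le_refl Z))
      intro u hu hu2
      apply he0
      intro h
      exact hu2 (Finset.mem_sdiff.2 ⟨h, (Finset.mem_sdiff.1 hu).2⟩)
  -- the decomposition of `F \ Z`
  have hdec : F \ Z = (σ \ Z) ∪ ((F \ Z) \ σ) := by
    ext u
    simp only [Finset.mem_union, Finset.mem_sdiff]
    constructor
    · rintro ⟨h1, h2⟩
      by_cases h3 : u ∈ σ
      · exact Or.inl ⟨h3, h2⟩
      · exact Or.inr ⟨⟨h1, h2⟩, h3⟩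
    · rintro (⟨h1, h2⟩ | ⟨h1, -⟩)
      · exact ⟨hσ h1, h2⟩
      · exact h1
  have hdisj : Disjoint (σ \ Z) ((F \ Z) \ σ) := by
    rw [Finset.disjoint_left]
    intro u h1 h2
    exact (Finset.mem_sdiff.1 h2).2 (Finset.mem_sdiff.1 h1).1
  set P : ℝ := ∏ u ∈ F \ σ, (ε * e u) with hP
  have hcardFσ : (F \ σ).card = n - σ.card := by
    rw [Finset.card_sdiff_of_subset hσ, hFc]
  have hPe : P = ε ^ (n - σ.card) * ∏ u ∈ F \ σ, e u := by
    rw [hP, Finset.prod_mul_distrib, Finset.prod_const, hcardFσ]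
  -- the sum over the faces
  have hsum : ∑ τ ∈ (F \ Z).powerset, (-1) ^ τ.card * v τ /
      ∏ u ∈ F \ τ, crd F (w0 + ε • η) u = P⁻¹ *
      ∑ B ∈ ((Φ.vert \ Z) \ σ).powerset, (∏ u ∈ B, (ε * e u)) *
      ∑ ρ ∈ (σ \ Z).powerset, ((-1) ^ (ρ.card + B.card) * v (ρ ∪ B)) *
        ∏ t ∈ σ \ ρ, (c t + ε * e t)⁻¹ := by
    rw [hwe]
    have hsub : ((F \ Z) \ σ).powerset ⊆ ((Φ.vert \ Z) \ σ).powerset := by
      apply Finset.powerset_mono.2
      exact Finset.sdiff_subset_sdiff (Finset.sdiff_subset_sdiff hFv (le_refl Z)) (le_refl σ)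
    rw [← Finset.sum_subset hsub (by
      intro B hB hB2
      have : ∃ u ∈ B, u ∉ F := by
        by_contra hcon
        push Not at hcon
        apply hB2
        rw [Finset.mem_powerset] at hB ⊢
        intro u hu
        have := Finset.mem_sdiff.1 (hB hu)
        exact Finset.mem_sdiff.2 ⟨Finset.mem_sdiff.2 ⟨hcon u hu, (Finset.mem_sdiff.1 this.1).2⟩,
          this.2⟩
      obtain ⟨u, huB, huF⟩ := this
      rw [Finset.prod_eq_zero huB (by rw [he0 u huF, mul_zero]), zero_mul])]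
    have hsplit : ∑ τ ∈ (F \ Z).powerset, (-1) ^ τ.card * v τ / ∏ u ∈ F \ τ, w u =
        ∑ B ∈ ((F \ Z) \ σ).powerset, ∑ ρ ∈ (σ \ Z).powerset,
          (-1) ^ (ρ ∪ B).card * v (ρ ∪ B) / ∏ u ∈ F \ (ρ ∪ B), w u := by
      rw [← sum_powerset_split _ _ hdisj
        (fun τ => (-1) ^ τ.card * v τ / ∏ u ∈ F \ τ, w u), ← hdec]
    rw [hsplit, Finset.mul_sum]
    refine Finset.sum_congr rfl fun B hB => ?_
    rw [Finset.mul_sum, Finset.mul_sum]
    refine Finset.sum_congr rfl fun ρ hρ => ?_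
    rw [Finset.mem_powerset] at hB hρ
    have hBF : B ⊆ F \ σ := by
      intro u hu
      have := Finset.mem_sdiff.1 (hB hu)
      exact Finset.mem_sdiff.2 ⟨(Finset.mem_sdiff.1 this.1).1, this.2⟩
    have hρσ : ρ ⊆ σ := fun u hu => (Finset.mem_sdiff.1 (hρ hu)).1
    have hdρB : Disjoint ρ B := by
      rw [Finset.disjoint_left]
      intro u h1 h2
      exact (Finset.mem_sdiff.1 (hBF h2)).2 (hρσ h1)
    have hFdec : F \ (ρ ∪ B) = (σ \ ρ) ∪ ((F \ σ) \ B) := by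
      ext u
      simp only [Finset.mem_union, Finset.mem_sdiff, not_or]
      constructor
      · rintro ⟨h1, h2, h3⟩
        by_cases h4 : u ∈ σ
        · exact Or.inl ⟨h4, h2⟩
        · exact Or.inr ⟨⟨h1, h4⟩, h3⟩
      · rintro (⟨h1, h2⟩ | ⟨⟨h1, h2⟩, h3⟩)
        · refine ⟨hσ h1, h2, fun h4 => ?_⟩
          exact (Finset.mem_sdiff.1 (hBF h4)).2 h1
        · exact ⟨h1, fun h4 => h2 (hρσ h4), h3⟩
    have hd2 : Disjoint (σ \ ρ) ((F \ σ) \ B) := by
      rw [Finset.disjoint_left]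
      intro u h1 h2
      exact (Finset.mem_sdiff.1 (Finset.mem_sdiff.1 h2).1).2 (Finset.mem_sdiff.1 h1).1
    have hprod : ∏ u ∈ F \ (ρ ∪ B), w u =
        (∏ t ∈ σ \ ρ, (c t + ε * e t)) * ∏ u ∈ (F \ σ) \ B, (ε * e u) := by
      rw [hFdec, Finset.prod_union hd2]
      congr 1
      · refine Finset.prod_congr rfl fun t ht => ?_
        simp only [w]
        rw [if_pos (Finset.mem_sdiff.1 ht).1]
      · refine Finset.prod_congr rfl fun u hu => ?_
        simp only [w]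
        rw [if_neg (Finset.mem_sdiff.1 (Finset.mem_sdiff.1 hu).1).2, zero_add]
    have hPsplit : (∏ u ∈ (F \ σ) \ B, (ε * e u)) * ∏ u ∈ B, (ε * e u) = P :=
      Finset.prod_sdiff hBF
    have hBne : ∏ u ∈ B, (ε * e u) ≠ 0 := Finset.prod_ne_zero_iff.2 fun u hu =>
      mul_ne_zero hε (hene u (Finset.mem_sdiff.1 (hBF hu)).1)
    have hRne : ∏ u ∈ (F \ σ) \ B, (ε * e u) ≠ 0 := Finset.prod_ne_zero_iff.2 fun u hu =>
      mul_ne_zero hε (hene u (Finset.mem_sdiff.1 (Finset.mem_sdiff.1 hu).1).1)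
    rw [hprod, Finset.card_union_of_disjoint hdρB, Finset.prod_inv_distrib, ← hPsplit]
    rw [div_eq_mul_inv, mul_inv, mul_inv]
    field_simp
  unfold WtermR YFR
  rw [hsum, hpsi, hPe]
  rw [one_div, one_div, mul_inv, mul_inv, mul_inv, add_assoc]
  ring


theorem cs_eq_univ_of_isClassR {Φ : Fan n} {σ : Finset (Fin n → ℤ)}
    {c : (Fin n → ℤ) → ℝ} {w0 : Fin n → ℝ} (hν : ∀ i, 0 < w0 i) (hc : IsClassR Φ w0 σ c) : cs σ = univ := by
  apply Finset.eq_univ_of_forall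
  intro i
  unfold cs
  rw [Finset.mem_filter]
  refine ⟨Finset.mem_univ i, ?_⟩
  by_contra hcon
  push Not at hcon
  have h1 := congrFun hc.2.2 i
  rw [Finset.sum_apply] at h1
  have h2 : ∑ t ∈ σ, (c t • toR t) i = 0 := by
    refine Finset.sum_eq_zero fun t ht => ?_
    simp [hcon t ht]
  rw [h2] at h1
  exact (hν i).ne' h1

end K6

open K6 in
theorem classLimitR (h : LowDegree) : ClassLimitR := by
  intro n Φ v Z σ w0 c hν hc η hη s hs
  set q := n - σ.card with hq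
  set y := YhatR Φ v Z σ c s with hy
  set 𝓕 := Φ.mx.filter (fun F => σ ⊆ F) with h𝓕
  have hσn : σ.card ≤ n := by
    obtain ⟨F, hF, hσF⟩ := hc.1
    exact (Finset.card_le_card hσF).trans (Φ.mx_card F hF).le
  let A : Finset (Fin n → ℤ) → ℝ := fun F =>
    1 / ((idx (F : Set (Fin n → ℤ)) : ℝ) * ∏ u ∈ F \ σ, crd F η u)
  have hE : ∀ p : MvPolynomial (Fin n → ℤ) ℝ,
      Φ.Esum σ η p = ∑ F ∈ 𝓕, A F * MvPolynomial.eval (crd F η) p := by
    intro p
    unfold Fan.Esum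
    refine Finset.sum_congr rfl fun F _ => ?_
    simp only [A]
    ring
  -- remainder of one cone
  let Rm : Finset (Fin n → ℤ) → ℝ → ℝ := fun F ε =>
    YFR Φ v Z σ c (crd F η) s ε - MvPolynomial.eval (fun u => ε * crd F η u) y
  have hRm : ∀ F, Rm F =O[𝓝 0] fun ε : ℝ => ε ^ (n + 1) := fun F =>
    (cl_YFR Φ v Z σ c (crd F η) s hc.2.1 hs).sub
  have hRlim : ∀ F, Tendsto (fun ε : ℝ => (ε ^ q)⁻¹ * Rm F ε) (𝓝[>] 0) (𝓝 0) := by
    intro F
    have h1 : (fun ε : ℝ => (ε ^ q)⁻¹ * Rm F ε) =O[𝓝[>] 0] fun ε : ℝ => (ε ^ q)⁻¹ * ε ^ (n + 1) :=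
      (isBigO_refl _ _).mul ((hRm F).mono nhdsWithin_le_nhds)
    refine h1.trans_tendsto ?_
    have h2 : (fun ε : ℝ => (ε ^ q)⁻¹ * ε ^ (n + 1)) =ᶠ[𝓝[>] 0] fun ε => ε ^ (n + 1 - q) := by
      filter_upwards [self_mem_nhdsWithin] with ε hε
      have hε0 : ε ≠ 0 := ne_of_gt hε
      have h4 := pow_sub₀ ε hε0 (show q ≤ n + 1 by omega)
      rw [h4, mul_comm]
    rw [tendsto_congr' h2]
    have h3 : Tendsto (fun ε : ℝ => ε ^ (n + 1 - q)) (𝓝 0) (𝓝 (0 ^ (n + 1 - q))) :=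
      (continuous_pow _).tendsto 0
    rw [zero_pow (by omega)] at h3
    exact h3.mono_left nhdsWithin_le_nhds
  -- the main identity
  have hmain : (fun ε : ℝ => ∑ F ∈ 𝓕, WtermR v Z F s (w0 + ε • η)) =ᶠ[𝓝[>] 0]
      fun ε => ∑ j ∈ range (y.totalDegree + 1), ((ε ^ q)⁻¹ * ε ^ j) *
        Φ.Esum σ η (MvPolynomial.homogeneousComponent j y) +
        ∑ F ∈ 𝓕, A F * ((ε ^ q)⁻¹ * Rm F ε) := by
    filter_upwards [self_mem_nhdsWithin] with ε hε
    have hε0 : ε ≠ 0 := ne_of_gt hε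
    have h1 : ∀ F ∈ 𝓕, WtermR v Z F s (w0 + ε • η) =
        A F * ((ε ^ q)⁻¹ * MvPolynomial.eval (fun u => ε * crd F η u) y) +
          A F * ((ε ^ q)⁻¹ * Rm F ε) := by
      intro F hF
      rw [Finset.mem_filter] at hF
      rw [wterm_eqR hc hF.1 hF.2 hη s hε0]
      simp only [A, Rm]
      ring
    rw [Finset.sum_congr rfl h1, Finset.sum_add_distrib]
    congr 1
    have h2 : ∀ F ∈ 𝓕, A F * ((ε ^ q)⁻¹ * MvPolynomial.eval (fun u => ε * crd F η u) y) =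
        ∑ j ∈ range (y.totalDegree + 1), ((ε ^ q)⁻¹ * ε ^ j) *
          (A F * MvPolynomial.eval (crd F η) (MvPolynomial.homogeneousComponent j y)) := by
      intro F _
      rw [eval_scale_sum, Finset.mul_sum, Finset.mul_sum]
      refine Finset.sum_congr rfl fun j _ => ?_
      ring
    rw [Finset.sum_congr rfl h2, Finset.sum_comm]
    refine Finset.sum_congr rfl fun j _ => ?_
    rw [hE, Finset.mul_sum]
  rw [tendsto_congr' hmain]
  -- limits of the terms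
  have hterm : ∀ j ∈ range (y.totalDegree + 1), Tendsto (fun ε : ℝ => ((ε ^ q)⁻¹ * ε ^ j) *
      Φ.Esum σ η (MvPolynomial.homogeneousComponent j y)) (𝓝[>] 0)
      (𝓝 (if j = q then Φ.Esum σ η (MvPolynomial.homogeneousComponent q y) else 0)) := by
    intro j _
    rcases lt_trichotomy j q with hj | hj | hj
    · have h0 : Φ.Esum σ η (MvPolynomial.homogeneousComponent j y) = 0 :=
        h n Φ σ hc.1 (cs_eq_univ_of_isClassR hν hc) η hη j _
          (MvPolynomial.homogeneousComponent_isHomogeneous j y) (by omega)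
      rw [h0, if_neg hj.ne]
      simp
    · subst hj
      rw [if_pos rfl]
      refine tendsto_const_nhds.congr' ?_
      filter_upwards [self_mem_nhdsWithin] with ε hε
      have hε0 : ε ≠ 0 := ne_of_gt hε
      rw [inv_mul_cancel₀ (pow_ne_zero _ hε0), one_mul]
    · rw [if_neg hj.ne']
      have h2 : (fun ε : ℝ => ((ε ^ q)⁻¹ * ε ^ j) *
          Φ.Esum σ η (MvPolynomial.homogeneousComponent j y)) =ᶠ[𝓝[>] 0] fun ε => ε ^ (j - q) *
          Φ.Esum σ η (MvPolynomial.homogeneousComponent j y) := by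
        filter_upwards [self_mem_nhdsWithin] with ε hε
        have hε0 : ε ≠ 0 := ne_of_gt hε
        have h4 := pow_sub₀ ε hε0 hj.le
        rw [h4]
        ring
      rw [tendsto_congr' h2]
      have h3 : Tendsto (fun ε : ℝ => ε ^ (j - q) *
          Φ.Esum σ η (MvPolynomial.homogeneousComponent j y)) (𝓝 0)
          (𝓝 (0 ^ (j - q) * Φ.Esum σ η (MvPolynomial.homogeneousComponent j y))) :=
        ((continuous_pow _).tendsto 0).mul_const _
      rw [zero_pow (by omega), zero_mul] at h3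
      exact h3.mono_left nhdsWithin_le_nhds
  have hsum1 := tendsto_finsetSum (range (y.totalDegree + 1)) hterm
  have hsum2 : Tendsto (fun ε : ℝ => ∑ F ∈ 𝓕, A F * ((ε ^ q)⁻¹ * Rm F ε)) (𝓝[>] 0)
      (𝓝 (∑ F ∈ 𝓕, A F * 0)) :=
    tendsto_finsetSum 𝓕 fun F _ => (hRlim F).const_mul (A F)
  have htot := hsum1.add hsum2
  have hval : (∑ j ∈ range (y.totalDegree + 1),
      if j = q then Φ.Esum σ η (MvPolynomial.homogeneousComponent q y) else 0) +
      ∑ F ∈ 𝓕, A F * 0 = Φ.Esum σ η (MvPolynomial.homogeneousComponent q y) := by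
    simp only [mul_zero, Finset.sum_const_zero, add_zero]
    rw [Finset.sum_ite_eq' (range (y.totalDegree + 1)) q]
    split_ifs with hmem
    · rfl
    · have hlt : y.totalDegree < q := by
        rw [Finset.mem_range] at hmem
        omega
      rw [MvPolynomial.homogeneousComponent_eq_zero _ _ hlt, hE]
      simp
  rw [hval] at htot
  exact htot

end Comp

end Mono
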